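import Mathlib
import Pool.Agent.H.MP_38292b_an.B

namespace Pool.Agent.Results.MP_38292b_an.No
open MeasureTheory Filter Topology Set Sum Pool.Agent.H.MP_38292b_an

open Classical in
noncomputable def ff (Q : Set II) (e : (KK Q).extremePoints ℝ) : ℕ∞ :=
  if ∀ j, (e : EE Q) (inr j) = 0 then 3 else 1

lemma ff_lu (Q : Set II) : LU fun e => ((ff Q e : ENNReal) : EReal) := by
  refine ⟨fun _ e => ((ff Q e : ENNReal) : EReal), fun _ t => ?_, fun _ _ _ => le_rfl,
    fun _ => tendsto_const_nhds⟩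
  have ho : IsOpen {e : (KK Q).extremePoints ℝ | ¬ ∀ j, (e : EE Q) (inr j) = 0} := by
    refine isOpen_compl_iff.2 ?_
    change IsClosed {e : (KK Q).extremePoints ℝ | ∀ j, (e : EE Q) (inr j) = 0}
    rw [ofPred_forall]
    exact isClosed_iInter fun j => isClosed_eq ((continuous_apply _).comp continuous_subtype_val)
      continuous_const
  change IsOpen {e | ((ff Q e : ENNReal) : EReal) < t}
  by_cases h3 : (((3 : ℕ∞) : ENNReal) : EReal) < t
  · convert isOpen_univ
    refine eq_univ_of_forall fun e => lt_of_le_of_lt ?_ h3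
    unfold ff
    split_ifs
    · exact le_rfl
    · exact_mod_cast (by norm_num : (1 : ℕ∞) ≤ 3)
  by_cases h1 : (((1 : ℕ∞) : ENNReal) : EReal) < t
  · convert ho using 1
    ext e
    simp only [mem_ofPred_eq]
    unfold ff
    split_ifs with h
    · exact iff_of_false h3 (not_not.2 h)
    · exact iff_of_true h1 h
  · convert isOpen_empty
    refine eq_empty_of_forall_notMem fun e => ?_
    unfold ff
    simp only [mem_ofPred_eq]
    split_ifs
    exacts [h3, h1]

lemma big (Q : Set II) {x : II} (hx : x ∉ Q) : 3 ≤ addExt (KK Q) (ff Q) (g Q x 0) := by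
  refine le_iInf₂ ?_
  rintro s ⟨p, hp, h1, h2⟩
  obtain ⟨e, he⟩ : s.Nonempty := by
    by_contra h
    rw [Finset.not_nonempty_iff_eq_empty] at h
    simp [h] at h1
  refine le_trans ?_ (Finset.single_le_sum (f := ff Q) (fun _ _ => zero_le) he)
  have hc : ∀ n, ∑ e ∈ s, p e * (e : EE Q) (inl n) = (x : ℝ) ^ n := fun n => by
    have := congrFun h2 (inl n)
    simpa [Finset.sum_apply, g_inl] using this
  have h3 : ∑ e ∈ s, p e * ((e : EE Q) (inl 2) - 2 * x * (e : EE Q) (inl 1) + x ^ 2) = 0 := by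
    have : ∀ e : (KK Q).extremePoints ℝ, p e * ((e : EE Q) (inl 2) - 2 * x * (e : EE Q) (inl 1) + x ^ 2)
        = p e * (e : EE Q) (inl 2) - 2 * x * (p e * (e : EE Q) (inl 1)) + x ^ 2 * p e :=
      fun e => by ring
    simp only [this, Finset.sum_add_distrib, Finset.sum_sub_distrib, ← Finset.mul_sum, hc, h1]
    ring
  have h4 := (Finset.sum_eq_zero_iff_of_nonneg fun e he =>
    mul_nonneg (hp e he).le (var_nonneg e.2.1 x)).1 h3 e he
  have h5 := (var0 e.2.1 x ((mul_eq_zero.1 h4).resolve_left (hp e he).ne').le).2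
  unfold ff
  rw [if_pos fun j => h5 j fun h => hx (h ▸ j.2)]

lemma small (Q : Set II) {x : II} (hx : x ∈ Q) : addExt (KK Q) (ff Q) (g Q x 0) ≤ 2 := by
  classical
  let a : (KK Q).extremePoints ℝ := ⟨g Q x 1, ext_eq ▸ ⟨x, 1, Or.inl rfl, rfl⟩⟩
  let b : (KK Q).extremePoints ℝ := ⟨g Q x (-1), ext_eq ▸ ⟨x, -1, Or.inr rfl, rfl⟩⟩
  have ha : (a : EE Q) (inr ⟨x, hx⟩) = 1 := g_eq (j := ⟨x, hx⟩) rfl _
  have hb : (b : EE Q) (inr ⟨x, hx⟩) = -1 := g_eq (j := ⟨x, hx⟩) rfl _
  have hab : a ≠ b := fun h => by rw [h, hb] at ha; norm_num at ha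
  refine le_trans (iInf₂_le {a, b} ⟨fun _ => 1 / 2, fun _ _ => by norm_num, ?one, ?two⟩) ?three
  case one => rw [Finset.sum_pair hab]; norm_num
  case two =>
    rw [Finset.sum_pair hab]
    funext i
    cases i with
    | inl n => simp only [a, b, Pi.add_apply, Pi.smul_apply, smul_eq_mul, g_inl]; ring
    | inr j =>
      simp only [a, b, Pi.add_apply, Pi.smul_apply, smul_eq_mul]
      by_cases hj : (j : II) = x
      · simp only [g_eq hj]; ring
      · simp only [g_ne hj]; ring
  case three =>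
    rw [Finset.sum_pair hab]
    unfold ff
    rw [if_neg fun h => by simpa [ha] using h ⟨x, hx⟩, if_neg fun h => by simpa [hb] using h ⟨x, hx⟩]
    norm_num

lemma not_lu (Q : Set II) (hQ : Q.Countable) (hd : Dense Q) :
    ¬ LU fun z : KK Q => ((addExt (KK Q) (ff Q) z : ENNReal) : EReal) := by
  rintro ⟨u, hu, hm, hl⟩
  let G : II → KK Q := fun x => ⟨g Q x 0, g_mem x (by simp)⟩
  have hG : Continuous G := by
    refine Continuous.subtype_mk (continuous_pi fun i => ?_) _
    cases i with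
    | inl n => exact (by fun_prop : Continuous fun x : II => (x : ℝ) ^ n)
    | inr j => simpa [g] using continuous_const
  haveI := hQ.to_subtype
  let C : ℕ ⊕ Q → Set II := Sum.elim (fun n => {x | ¬ u n (G x) < ((5 / 2 : ℝ) : EReal)})
    fun j => {(j : II)}
  obtain ⟨i, x, hx⟩ := nonempty_interior_of_iUnion_of_closed (f := C) (fun i => by
    cases i with
    | inl n => exact ((hu n (5 / 2)).preimage hG).isClosed_compl
    | inr j => exact isClosed_singleton) (by
    refine eq_univ_of_forall fun x => mem_iUnion.2 ?_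
    by_cases hx : x ∈ Q
    · exact ⟨inr ⟨x, hx⟩, rfl⟩
    · have h1 : ((5 / 2 : ℝ) : EReal) < ((addExt (KK Q) (ff Q) (G x) : ENNReal) : EReal) := by
        refine lt_of_lt_of_le (b := (((3 : ℕ∞) : ENNReal) : EReal)) ?_ (by exact_mod_cast big Q hx)
        change _ < ((3 : ℝ) : EReal)
        exact_mod_cast (by norm_num : (5 / 2 : ℝ) < 3)
      obtain ⟨n, hn⟩ := ((hl (G x)).eventually (lt_mem_nhds h1)).exists
      exact ⟨inl n, hn.le.not_gt⟩)
  cases i with
  | inl n =>
    obtain ⟨y, hy1, hy2⟩ := hd.exists_mem_open isOpen_interior ⟨x, hx⟩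
    refine interior_subset hy2 (lt_of_le_of_lt (ge_of_tendsto (hl (G y))
      (eventually_atTop.2 ⟨n, fun k hk => hm hk _⟩)) ?_)
    refine lt_of_le_of_lt (b := (((2 : ℕ∞) : ENNReal) : EReal))
      (EReal.coe_ennreal_le_coe_ennreal_iff.2 (ENat.toENNReal_le.2 (small Q hy1))) ?_
    change ((2 : ℝ) : EReal) < _
    exact_mod_cast (by norm_num : (2 : ℝ) < 5 / 2)
  | inr j =>
    change x ∈ interior {(j : II)} at hx
    rw [interior_singleton] at hx
    exact hx

theorem result : ∃ (E : Type) (_ : AddCommGroup E) (_ : Module ℝ E) (_ : TopologicalSpace E)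
    (_ : IsTopologicalAddGroup E) (_ : ContinuousSMul ℝ E) (_ : LocallyConvexSpace ℝ E)
    (_ : T2Space E) (_ : MeasurableSpace E) (_ : BorelSpace E) (K : Set E)
    (f : K.extremePoints ℝ → ℕ∞), IsSimplex K ∧ (∀ e, 1 ≤ f e) ∧
      LU (fun e => ((f e : ENNReal) : EReal)) ∧
      ¬ LU fun z : K => ((addExt K f z : ENNReal) : EReal) := by
  obtain ⟨Q, hQ, hd⟩ := TopologicalSpace.exists_countable_dense II
  haveI := hQ.to_subtype
  refine ⟨EE Q, inferInstance, inferInstance, inferInstance, inferInstance, inferInstance,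
    inferInstance, inferInstance, inferInstance, inferInstance, KK Q, ff Q, simplex, fun e => ?_,
    ff_lu Q, not_lu Q hQ hd⟩
  unfold ff
  split_ifs <;> norm_num

end Pool.Agent.Results.MP_38292b_an.No
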